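import Mathlib

open Set
open scoped InnerProductSpace

namespace Pool.Agent.Results.MP_e5975b_an.Disconnected

/-- Euclidean space. -/
abbrev E (n : ℕ) := EuclideanSpace ℝ (Fin n)

/-- Pareto solution set: `F(x)(x-y) ∉ C \ {0}` for all `y ∈ K`. -/
def Sol {n m : ℕ} (F : Fin m → E n → E n) (K : Set (E n)) : Set (E n) :=
  {x | x ∈ K ∧ ∀ y ∈ K, ¬ ((∀ l, 0 ≤ ⟪F l x, x - y⟫_ℝ) ∧ ∃ l, ⟪F l x, x - y⟫_ℝ ≠ 0)}

/-- Weak Pareto solution set: `F(x)(x-y) ∉ int C` for all `y ∈ K`. -/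
def SolW {n m : ℕ} (F : Fin m → E n → E n) (K : Set (E n)) : Set (E n) :=
  {x | x ∈ K ∧ ∀ y ∈ K, ¬ ∀ l, 0 < ⟪F l x, x - y⟫_ℝ}

/-- Proper Pareto solution set: union of `Sol(F_ξ, K)` over `ξ` in the relative interior of the
simplex. -/
def SolPr {n m : ℕ} (F : Fin m → E n → E n) (K : Set (E n)) : Set (E n) :=
  {x | ∃ ξ : Fin m → ℝ, (∀ l, 0 < ξ l) ∧ ∑ l, ξ l = 1 ∧
    x ∈ K ∧ ∀ y ∈ K, 0 ≤ ⟪∑ l, ξ l • F l x, y - x⟫_ℝ}

/-- Each `F l` is monotone on `K`. -/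
def Mono {n m : ℕ} (F : Fin m → E n → E n) (K : Set (E n)) : Prop :=
  ∀ l, ∀ x ∈ K, ∀ y ∈ K, 0 ≤ ⟪F l y - F l x, y - x⟫_ℝ

/-- Each `F l` is differentiable everywhere with symmetric Jacobian. -/
def Symm {n m : ℕ} (F : Fin m → E n → E n) : Prop :=
  ∀ l, Differentiable ℝ (F l) ∧ ∀ x i j,
    fderiv ℝ (fun y => F l y i) x (EuclideanSpace.single j 1) =
      fderiv ℝ (fun y => F l y j) x (EuclideanSpace.single i 1)

def K : Set (E 3) := {x | 0 ≤ x 0 ∧ 0 ≤ x 1 ∧ 0 ≤ x 2 ∧ 1 ≤ x 0 * (x 1 + x 2)}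

noncomputable def F : Fin 2 → E 3 → E 3 := fun l _ =>
  if l = 0 then !₂[0, 2, -1] else !₂[0, -1, 2]

def D : Set (E 3) := {x | x ∈ K ∧ (x 1 = 0 ∨ x 2 = 0)}

lemma in0 (x v : E 3) : ⟪F 0 x, v⟫_ℝ = 2 * v 1 - v 2 := by
  simp [F, PiLp.inner_apply, Fin.sum_univ_three]; ring

lemma in1 (x v : E 3) : ⟪F 1 x, v⟫_ℝ = 2 * v 2 - v 1 := by
  simp [F, PiLp.inner_apply, Fin.sum_univ_three]; ring

lemma hyp (s w s' w' : ℝ) (hs : 0 ≤ s) (hw : 0 ≤ w) (hs' : 0 ≤ s') (hw' : 0 ≤ w')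
    (h : 1 ≤ s * w) (h' : 1 ≤ s' * w') : 2 ≤ s * w' + s' * w := by
  by_contra hc
  push Not at hc
  have hp : 0 ≤ s * w' := mul_nonneg hs hw'
  have hq : 0 ≤ s' * w := mul_nonneg hs' hw
  have h1 : 1 ≤ (s * w') * (s' * w) := by nlinarith
  nlinarith [sq_nonneg (s * w' - s' * w)]

lemma convK : Convex ℝ K := by
  rintro x ⟨h0, h1, h2, h3⟩ y ⟨g0, g1, g2, g3⟩ a b ha hb hab
  have key := hyp (x 0) (x 1 + x 2) (y 0) (y 1 + y 2) h0 (by linarith) g0 (by linarith) h3 g3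
  simp only [K, mem_ofPred_eq, PiLp.add_apply, PiLp.smul_apply, smul_eq_mul]
  refine ⟨by positivity, by positivity, by positivity, ?_⟩
  have e : (1 : ℝ) = a ^ 2 + b ^ 2 + a * b * 2 := by
    have : (a + b) ^ 2 = 1 := by rw [hab]; norm_num
    nlinarith
  nlinarith [mul_le_mul_of_nonneg_left key (mul_nonneg ha hb),
    mul_le_mul_of_nonneg_left h3 (sq_nonneg a), mul_le_mul_of_nonneg_left g3 (sq_nonneg b)]

lemma closedK : IsClosed K := by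
  have c : ∀ i : Fin 3, Continuous fun x : E 3 => x i := fun i => by fun_prop
  simp only [K, ofPred_and]
  refine (isClosed_le continuous_const (c 0)).inter ((isClosed_le continuous_const (c 1)).inter
    ((isClosed_le continuous_const (c 2)).inter (isClosed_le continuous_const ?_)))
  exact (c 0).mul ((c 1).add (c 2))

lemma W_sub : SolW F K ⊆ D := by
  rintro x ⟨hK, h⟩
  refine ⟨hK, ?_⟩
  obtain ⟨h0, h1, h2, h3⟩ := hK
  by_contra hc
  push Not at hc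
  have p1 : 0 < x 1 := lt_of_le_of_ne h1 (Ne.symm hc.1)
  have p2 : 0 < x 2 := lt_of_le_of_ne h2 (Ne.symm hc.2)
  set δ := min (x 1) (x 2) / 2 with hδ
  have d0 : 0 < δ := by positivity
  have d1 : δ ≤ x 1 / 2 := by have := min_le_left (x 1) (x 2); linarith
  have d2 : δ ≤ x 2 / 2 := by have := min_le_right (x 1) (x 2); linarith
  refine h !₂[2 * x 0, x 1 - δ, x 2 - δ] ⟨?_, ?_, ?_, ?_⟩ ?_
  · simp; linarith
  · simp; linarith
  · simp; linarith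
  · simp; nlinarith
  · rw [Fin.forall_fin_two, in0, in1]
    simp
    linarith

lemma D_sub : D ⊆ SolPr F K := by
  rintro x ⟨hK, h | h⟩
  · refine ⟨![2 / 3, 1 / 3], ?_, ?_, hK, fun y hy => ?_⟩
    · rw [Fin.forall_fin_two]; simp
    · simp [Fin.sum_univ_two]; norm_num
    · simp only [Fin.sum_univ_two, inner_add_left, real_inner_smul_left, in0, in1]
      simp [h]
      linarith [hy.2.1]
  · refine ⟨![1 / 3, 2 / 3], ?_, ?_, hK, fun y hy => ?_⟩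
    · rw [Fin.forall_fin_two]; simp
    · simp [Fin.sum_univ_two]; norm_num
    · simp only [Fin.sum_univ_two, inner_add_left, real_inner_smul_left, in0, in1]
      simp [h]
      linarith [hy.2.2.1]

lemma Pr_sub : SolPr F K ⊆ Sol F K := by
  rintro x ⟨ξ, hξ, -, hK, h⟩
  refine ⟨hK, fun y hy ⟨h1, l, h2⟩ => ?_⟩
  have := h y hy
  rw [← neg_sub x y, inner_neg_right, sum_inner] at this
  simp only [real_inner_smul_left] at this
  have : 0 < ∑ l, ξ l * ⟪F l x, x - y⟫_ℝ :=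
    Finset.sum_pos' (fun i _ => mul_nonneg (hξ i).le (h1 i))
      ⟨l, Finset.mem_univ _, mul_pos (hξ l) (lt_of_le_of_ne (h1 l) (Ne.symm h2))⟩
  linarith

lemma Sol_sub : Sol F K ⊆ SolW F K := by
  rintro x ⟨hK, h⟩
  exact ⟨hK, fun y hy h' => h y hy ⟨fun l => (h' l).le, 0, (h' 0).ne'⟩⟩

lemma a_mem : (!₂[1, 1, 0] : E 3) ∈ D := ⟨by simp [K], by simp⟩
lemma b_mem : (!₂[1, 0, 1] : E 3) ∈ D := ⟨by simp [K], by simp⟩

lemma notconn : ¬ IsPreconnected D := by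
  intro h
  have c : Continuous fun x : E 3 => x 1 - x 2 := by fun_prop
  obtain ⟨x, ⟨⟨h0, h1, h2, h3⟩, h4⟩, hx⟩ := h.intermediate_value b_mem a_mem c.continuousOn
    (show (0 : ℝ) ∈ _ by simp)
  simp only at hx
  have : x 1 + x 2 = 0 := by rcases h4 with h4 | h4 <;> linarith
  rw [this] at h3
  norm_num at h3

theorem result : ∃ (K : Set (E 3)) (F : Fin 2 → E 3 → E 3),
    K.Nonempty ∧ IsClosed K ∧ Convex ℝ K ∧ (∀ l, Continuous (F l)) ∧ Symm F ∧ Mono F K ∧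
    ((SolW F K).Nonempty ∧ ¬ IsPreconnected (SolW F K)) ∧
    ((Sol F K).Nonempty ∧ ¬ IsPreconnected (Sol F K)) ∧
    ((SolPr F K).Nonempty ∧ ¬ IsPreconnected (SolPr F K)) := by
  have e1 : SolW F K = D := W_sub.antisymm (D_sub.trans (Pr_sub.trans Sol_sub))
  have e2 : Sol F K = D := (Sol_sub.trans W_sub).antisymm (D_sub.trans Pr_sub)
  have e3 : SolPr F K = D := (Pr_sub.trans (Sol_sub.trans W_sub)).antisymm D_sub
  refine ⟨K, F, ⟨_, a_mem.1⟩, closedK, convK, fun l => continuous_const, fun l => ⟨?_, ?_⟩,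
    fun l x _ y _ => ?_, ?_, ?_, ?_⟩
  · exact differentiable_const _
  · intro x i j
    simp [F]
  · simp [F]
  · rw [e1]; exact ⟨⟨_, a_mem⟩, notconn⟩
  · rw [e2]; exact ⟨⟨_, a_mem⟩, notconn⟩
  · rw [e3]; exact ⟨⟨_, a_mem⟩, notconn⟩

end Pool.Agent.Results.MP_e5975b_an.Disconnected
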